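import Mathlib

open Set Topology Filter TopologicalSpace

namespace Pool.Agent.Work.MP_e752eb_gt

universe u v

section Combinatorics

variable {X : Type u} {κ : Type v} [LinearOrder κ]

/-- `B` is good with branch `τ` for the address function `σ`: for every `k`, among the points of
`B` whose address agrees with `τ` below `k`, the largest possible `k`-th coordinate is attained
and equals `τ k`. -/
def GoodWith (σ : X → ℕ → κ) (B : Set X) (τ : ℕ → κ) : Prop :=
  (∀ k, ∃ z ∈ B, ∀ j ≤ k, σ z j = τ j) ∧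
    ∀ k, ∀ z ∈ B, (∀ j < k, σ z j = τ j) → σ z k ≤ τ k

lemma GoodWith.nonempty {σ : X → ℕ → κ} {B : Set X} {τ : ℕ → κ} (h : GoodWith σ B τ) :
    B.Nonempty := by
  obtain ⟨z, hz, -⟩ := h.1 0
  exact ⟨z, hz⟩

/-- Monotonicity of the branch: if `B' ⊆ B` and the branches agree below `k`, then
the `k`-th coordinate of the branch of `B'` is at most that of `B`. -/
lemma GoodWith.mono {σ : X → ℕ → κ} {B B' : Set X} {τ τ' : ℕ → κ}
    (h : GoodWith σ B τ) (h' : GoodWith σ B' τ') (hsub : B' ⊆ B) (k : ℕ)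
    (hk : ∀ j < k, τ' j = τ j) : τ' k ≤ τ k := by
  obtain ⟨z, hz, hzk⟩ := h'.1 k
  have h1 : σ z k ≤ τ k := h.2 k z (hsub hz) (fun j hj => by rw [hzk j hj.le, hk j hj])
  rwa [hzk k le_rfl] at h1

/-- The points which are lexicographically below `τ` with a strict inequality at `j` and
weak inequalities before. -/
def LtAt (σ : X → ℕ → κ) (τ : ℕ → κ) (j : ℕ) : Set X :=
  {z | (∀ i < j, σ z i ≤ τ i) ∧ σ z j < τ j}

/-- The points whose first `m` coordinates are at most those of `τ`. -/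
def LeUpto (σ : X → ℕ → κ) (τ : ℕ → κ) (m : ℕ) : Set X :=
  {z | ∀ i < m, σ z i ≤ τ i}

lemma good_case1 {σ : X → ℕ → κ} {W : Set X} {y : X} (hy : y ∈ W) (m : ℕ)
    (hm : ∀ z ∈ W, (∀ j < m, σ z j = σ y j) → ¬ toLex (σ y) < toLex (σ z)) :
    GoodWith σ (W ∩ (LeUpto σ (σ y) m ∪ ⋃ j ∈ Set.Iio m, LtAt σ (σ y) j)) (σ y) := by
  refine ⟨fun k => ⟨y, ⟨hy, Or.inl fun i _ => le_rfl⟩, fun j _ => rfl⟩, ?_⟩
  rintro k z ⟨hzW, hz | hz⟩ hk
  · rcases lt_or_ge k m with hkm | hkm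
    · exact hz k hkm
    · by_contra hcon
      push Not at hcon
      have h1 := hm z hzW (fun j hj => hk j (lt_of_lt_of_le hj hkm))
      exact h1 ⟨k, fun j hj => (hk j hj).symm, hcon⟩
  · simp only [mem_iUnion, Set.mem_Iio] at hz
    obtain ⟨j, hjm, hj1, hj2⟩ := hz
    rcases lt_trichotomy k j with h | h | h
    · exact hj1 k h
    · subst h; exact hj2.le
    · exact absurd (hk j h) (ne_of_lt hj2)

lemma good_case2 {σ : X → ℕ → κ} {W : Set X} {τ : ℕ → κ}
    (hm : ∀ k, ∃ z ∈ W, (∀ j ≤ k, σ z j = τ j) ∧ toLex (σ z) < toLex τ) :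
    GoodWith σ (W ∩ (⋃ j, LtAt σ τ j)) τ := by
  refine ⟨fun k => ?_, ?_⟩
  · obtain ⟨z, hz, hzk, j, hj1, hj2⟩ := hm k
    exact ⟨z, ⟨hz, mem_iUnion.mpr ⟨j, fun i hi => (hj1 i hi).le, hj2⟩⟩, hzk⟩
  · rintro k z ⟨hzW, hz⟩ hk
    simp only [mem_iUnion] at hz
    obtain ⟨j, hj1, hj2⟩ := hz
    rcases lt_trichotomy k j with h | h | h
    · exact hj1 k h
    · subst h; exact hj2.le
    · exact absurd (hk j h) (ne_of_lt hj2)

/-- The key lemma: every point of an open set has a good open neighbourhood inside it. -/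
theorem exists_good [TopologicalSpace X] {σ : X → ℕ → κ}
    (hlt : ∀ k i, IsOpen {z | σ z k < i}) (hle : ∀ k i, IsOpen {z | σ z k ≤ i})
    {W : Set X} (hW : IsOpen W) {x : X} (hx : x ∈ W) :
    ∃ B τ, IsOpen B ∧ x ∈ B ∧ B ⊆ W ∧ GoodWith σ B τ := by
  have hLe : ∀ τ : ℕ → κ, ∀ m, IsOpen (LeUpto σ τ m) := by
    intro τ m
    have : LeUpto σ τ m = ⋂ i ∈ Set.Iio m, {z | σ z i ≤ τ i} := by
      ext z; simp [LeUpto]
    rw [this]
    exact (Set.finite_Iio m).isOpen_biInter fun i _ => hle i _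
  have hLt : ∀ τ : ℕ → κ, ∀ j, IsOpen (LtAt σ τ j) := by
    intro τ j
    have : LtAt σ τ j = LeUpto σ τ j ∩ {z | σ z j < τ j} := by
      ext z; simp [LtAt, LeUpto]
    rw [this]
    exact (hLe τ j).inter (hlt j _)
  by_cases hcase : ∃ y ∈ W, ∃ m, toLex (σ x) ≤ toLex (σ y) ∧
      ∀ z ∈ W, (∀ j < m, σ z j = σ y j) → ¬ toLex (σ y) < toLex (σ z)
  · obtain ⟨y, hy, m, hxy, hm⟩ := hcase
    refine ⟨_, _, ?_, ?_, inter_subset_left, good_case1 hy m hm⟩
    · exact hW.inter ((hLe _ m).union (isOpen_biUnion fun j _ => hLt _ j))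
    · refine ⟨hx, ?_⟩
      rcases hxy.eq_or_lt with h | h
      · left
        intro i _
        have : σ x = σ y := h
        rw [this]
      · obtain ⟨j, hj1, hj2⟩ := h
        rcases lt_or_ge j m with hjm | hjm
        · right
          simp only [mem_iUnion, Set.mem_Iio]
          exact ⟨j, hjm, fun i hi => (hj1 i hi).le, hj2⟩
        · left
          intro i hi
          exact (hj1 i (lt_of_lt_of_le hi hjm)).le
  · push Not at hcase
    -- dependent choice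
    have step : ∀ p : {p : X × ℕ // p.1 ∈ W ∧ toLex (σ x) ≤ toLex (σ p.1)},
        ∃ q : {p : X × ℕ // p.1 ∈ W ∧ toLex (σ x) ≤ toLex (σ p.1)},
          p.1.2 < q.1.2 ∧ (∀ j < p.1.2, σ q.1.1 j = σ p.1.1 j) ∧
          ∃ k, k < q.1.2 ∧ (∀ j < k, σ p.1.1 j = σ q.1.1 j) ∧ σ p.1.1 k < σ q.1.1 k := by
      rintro ⟨⟨y, m⟩, hy, hxy⟩
      obtain ⟨z, hz, hzm, hyz⟩ := hcase y hy m hxy
      obtain ⟨k, hk1, hk2⟩ := hyz
      have hmk : m ≤ k := by
        by_contra hcon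
        push Not at hcon
        exact (ne_of_lt hk2) (hzm k hcon).symm
      refine ⟨⟨⟨z, k + 1⟩, hz, hxy.trans (le_of_lt ⟨k, hk1, hk2⟩)⟩, Nat.lt_succ_of_le hmk, hzm,
        k, Nat.lt_succ_self k, hk1, hk2⟩
    choose nxt h1 h2 h3 using step
    let p : ℕ → {p : X × ℕ // p.1 ∈ W ∧ toLex (σ x) ≤ toLex (σ p.1)} :=
      fun n => Nat.rec ⟨⟨x, 0⟩, hx, le_rfl⟩ (fun _ q => nxt q) n
    have hp0 : p 0 = ⟨⟨x, 0⟩, hx, le_rfl⟩ := rfl
    have hps : ∀ n, p (n + 1) = nxt (p n) := fun n => rfl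
    have hmono : ∀ n, (p n).1.2 < (p (n + 1)).1.2 := fun n => by rw [hps]; exact h1 _
    have hsm : StrictMono fun n => (p n).1.2 := strictMono_nat_of_lt_succ hmono
    have hge : ∀ n, n ≤ (p n).1.2 := fun n => hsm.id_le n
    have hagree : ∀ n d, ∀ j < (p n).1.2, σ (p (n + d)).1.1 j = σ (p n).1.1 j := by
      intro n d
      induction d with
      | zero => intro j _; rfl
      | succ d ih =>
        intro j hj
        have hj' : j < (p (n + d)).1.2 := lt_of_lt_of_le hj (hsm.monotone (Nat.le_add_right n d))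
        have := h2 (p (n + d)) j hj'
        rw [← hps] at this
        rw [← ih j hj, ← this]
        rfl
    let τ : ℕ → κ := fun j => σ (p (j + 1)).1.1 j
    have hτ : ∀ n, ∀ j < (p n).1.2, σ (p n).1.1 j = τ j := by
      intro n j hj
      rcases le_total n (j + 1) with h | h
      · obtain ⟨d, hd⟩ := Nat.exists_eq_add_of_le h
        have := hagree n d j hj
        change σ (p n).1.1 j = σ (p (j + 1)).1.1 j
        rw [hd, this]
      · obtain ⟨d, hd⟩ := Nat.exists_eq_add_of_le h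
        have := hagree (j + 1) d j (lt_of_lt_of_le (Nat.lt_succ_self j) (hge (j + 1)))
        change σ (p n).1.1 j = σ (p (j + 1)).1.1 j
        rw [hd, this]
    have hlex : ∀ n, toLex (σ (p n).1.1) < toLex τ := by
      intro n
      obtain ⟨k, hk0, hk1, hk2⟩ := h3 (p n)
      rw [← hps] at hk0 hk1 hk2
      refine ⟨k, fun j hj => ?_, ?_⟩
      · change σ (p n).1.1 j = τ j
        rw [← hτ (n + 1) j (hj.trans hk0)]
        exact hk1 j hj
      · change σ (p n).1.1 k < τ k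
        rw [← hτ (n + 1) k hk0]
        exact hk2
    refine ⟨_, τ, ?_, ?_, inter_subset_left, good_case2 (σ := σ) (W := W) (τ := τ) ?_⟩
    · exact hW.inter (isOpen_iUnion fun j => hLt _ j)
    · refine ⟨hx, ?_⟩
      obtain ⟨j, hj1, hj2⟩ := hlex 0
      exact mem_iUnion.mpr ⟨j, fun i hi => (hj1 i hi).le, hj2⟩
    · intro k
      refine ⟨(p (k + 1)).1.1, (p (k + 1)).2.1, ?_, hlex (k + 1)⟩
      intro j hj
      exact hτ (k + 1) j (lt_of_le_of_lt hj (lt_of_lt_of_le (Nat.lt_succ_self k) (hge (k + 1))))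

/-- Along a downward directed family of good sets the branches converge, and the limit branch
is approached inside every member of the family. -/
theorem exists_limit_branch [WellFoundedLT κ] {σ : X → ℕ → κ} {𝓕 : Set (Set X)}
    (hne : 𝓕.Nonempty) (hgood : ∀ B ∈ 𝓕, ∃ τ, GoodWith σ B τ)
    (hdir : ∀ F ∈ 𝓕, ∀ G ∈ 𝓕, ∃ H ∈ 𝓕, H ⊆ F ∩ G) :
    ∃ τ : ℕ → κ, ∀ B ∈ 𝓕, ∀ k, ∃ z ∈ B, ∀ j < k, σ z j = τ j := by
  classical
  have hκ : Nonempty (ℕ → κ) := by
    obtain ⟨B, hB⟩ := hne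
    obtain ⟨τ, -⟩ := hgood B hB
    exact ⟨τ⟩
  choose! t ht using hgood
  have hS : ∀ k : ℕ, ∃ C ∈ 𝓕, ∀ B ∈ 𝓕, B ⊆ C → ∀ j < k, t B j = t C j := by
    intro k
    induction k with
    | zero =>
      obtain ⟨C, hC⟩ := hne
      exact ⟨C, hC, fun _ _ _ j hj => absurd hj (Nat.not_lt_zero j)⟩
    | succ k ih =>
      obtain ⟨C, hC, hCk⟩ := ih
      let S : Set κ := {a | ∃ B ∈ 𝓕, B ⊆ C ∧ t B k = a}
      have hSne : S.Nonempty := ⟨t C k, C, hC, subset_rfl, rfl⟩
      obtain ⟨a, ⟨C', hC', hC'C, hC'a⟩, hmin⟩ := WellFounded.has_min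
        (wellFounded_lt (α := κ)) S hSne
      refine ⟨C', hC', fun B hB hBC' j hj => ?_⟩
      have hlow : ∀ j < k, t B j = t C' j := fun j hj => by
        rw [hCk B hB (hBC'.trans hC'C) j hj, hCk C' hC' hC'C j hj]
      rcases Nat.lt_succ_iff_lt_or_eq.mp hj with h | h
      · exact hlow j h
      · subst h
        apply le_antisymm
        · exact (ht C' hC').mono (ht B hB) hBC' j hlow
        · have := hmin (t B j) ⟨B, hB, hBC'.trans hC'C, rfl⟩
          rw [hC'a]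
          exact not_lt.mp this
  choose C hC hCk using hS
  refine ⟨fun j => t (C (j + 1)) j, fun B hB k => ?_⟩
  obtain ⟨D, hD, hDsub⟩ := hdir B hB (C k) (hC k)
  obtain ⟨z, hz, hzk⟩ := (ht D hD).1 k
  refine ⟨z, (hDsub hz).1, fun j hj => ?_⟩
  rw [hzk j hj.le, hCk k D hD (hDsub.trans inter_subset_right) j hj]
  obtain ⟨E, hE, hEsub⟩ := hdir (C k) (hC k) (C (j + 1)) (hC (j + 1))
  rw [← hCk k E hE (hEsub.trans inter_subset_left) j hj,
    hCk (j + 1) E hE (hEsub.trans inter_subset_right) j (Nat.lt_succ_self j)]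

end Combinatorics

section Topology

variable {X : Type u} [TopologicalSpace X]

/-- If `X` has a sequence of open covers `U k` (indexed by points, `y ∈ U k y`) which is complete
(every proper filter containing a member of each cover has a cluster point), then `X` has a base
of non-empty open sets such that every non-empty downward directed family of its members has a
point in all of the closures. -/
theorem exists_base_of_complete_covers (U : ℕ → X → Set X) (hU : ∀ k y, IsOpen (U k y))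
    (hmem : ∀ k y, y ∈ U k y)
    (hcomp : ∀ F : Filter X, F.NeBot → (∀ k, ∃ y, U k y ∈ F) → ∃ p, ClusterPt p F) :
    ∃ 𝓑 : Set (Set X), IsTopologicalBasis 𝓑 ∧ (∀ B ∈ 𝓑, B.Nonempty) ∧
      ∀ 𝓕 ⊆ 𝓑, 𝓕.Nonempty → (∀ F ∈ 𝓕, ∀ G ∈ 𝓕, ∃ H ∈ 𝓕, H ⊆ F ∩ G) →
        ∃ p, ∀ F ∈ 𝓕, p ∈ closure F := by
  classical
  obtain ⟨hlin, hwf⟩ := exists_wellFoundedLT X
  -- the address function
  have hne : ∀ (x : X) (k : ℕ), {y : X | x ∈ U k y}.Nonempty := fun x k => ⟨x, hmem k x⟩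
  let σ : X → ℕ → X := fun x k => (wellFounded_lt (α := X)).min {y : X | x ∈ U k y} (hne x k)
  have hσmem : ∀ x k, x ∈ U k (σ x k) := fun x k =>
    (wellFounded_lt (α := X)).min_mem {y : X | x ∈ U k y} (hne x k)
  have hσle : ∀ x k y, x ∈ U k y → σ x k ≤ y := fun x k y hy =>
    not_lt.mp ((wellFounded_lt (α := X)).not_lt_min {y : X | x ∈ U k y} hy)
  have hlt : ∀ k i, IsOpen {z | σ z k < i} := by
    intro k i
    have : {z | σ z k < i} = ⋃ y ∈ Set.Iio i, U k y := by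
      ext z
      simp only [Set.mem_ofPred_eq, mem_iUnion, Set.mem_Iio, exists_prop]
      exact ⟨fun h => ⟨σ z k, h, hσmem z k⟩, fun ⟨y, hy, hz⟩ => (hσle z k y hz).trans_lt hy⟩
    rw [this]
    exact isOpen_biUnion fun y _ => hU k y
  have hle : ∀ k i, IsOpen {z | σ z k ≤ i} := by
    intro k i
    have : {z | σ z k ≤ i} = ⋃ y ∈ Set.Iic i, U k y := by
      ext z
      simp only [Set.mem_ofPred_eq, mem_iUnion, Set.mem_Iic, exists_prop]
      exact ⟨fun h => ⟨σ z k, h, hσmem z k⟩, fun ⟨y, hy, hz⟩ => (hσle z k y hz).trans hy⟩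
    rw [this]
    exact isOpen_biUnion fun y _ => hU k y
  refine ⟨{B | IsOpen B ∧ ∃ τ, GoodWith σ B τ}, ?_, ?_, ?_⟩
  · apply isTopologicalBasis_of_isOpen_of_nhds
    · intro B hB; exact hB.1
    · intro x W hx hW
      obtain ⟨B, τ, hBo, hxB, hBW, hB⟩ := exists_good hlt hle hW hx
      exact ⟨B, ⟨hBo, τ, hB⟩, hxB, hBW⟩
  · rintro B ⟨-, τ, hB⟩
    exact hB.nonempty
  · intro 𝓕 h𝓕 h𝓕ne hdir
    obtain ⟨τ, hτ⟩ := exists_limit_branch h𝓕ne (fun B hB => (h𝓕 hB).2) hdir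
    -- the filter
    let A : 𝓕 × ℕ → Set X := fun q => {z | z ∈ (q.1 : Set X) ∧ ∀ j < q.2, σ z j = τ j}
    have hAne : ∀ q, (A q).Nonempty := fun q => by
      obtain ⟨z, hz, hzk⟩ := hτ q.1 q.1.2 q.2
      exact ⟨z, hz, hzk⟩
    have hnon : Nonempty (𝓕 × ℕ) := by
      obtain ⟨B, hB⟩ := h𝓕ne
      exact ⟨(⟨B, hB⟩, 0)⟩
    have hdirA : Directed (· ≥ ·) fun q => 𝓟 (A q) := by
      intro q q'
      obtain ⟨H, hH, hHsub⟩ := hdir q.1 q.1.2 q'.1 q'.1.2
      refine ⟨(⟨H, hH⟩, max q.2 q'.2), ?_, ?_⟩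
      · exact principal_mono.mpr fun z hz =>
          ⟨(hHsub hz.1).1, fun j hj => hz.2 j (lt_max_of_lt_left hj)⟩
      · exact principal_mono.mpr fun z hz =>
          ⟨(hHsub hz.1).2, fun j hj => hz.2 j (lt_max_of_lt_right hj)⟩
    have hF : (⨅ q, 𝓟 (A q)).NeBot :=
      iInf_neBot_of_directed' hdirA fun q => principal_neBot_iff.mpr (hAne q)
    obtain ⟨p, hp⟩ := hcomp (⨅ q, 𝓟 (A q)) hF (fun k => by
      obtain ⟨B, hB⟩ := h𝓕ne
      refine ⟨τ k, ?_⟩
      apply mem_iInf_of_mem ((⟨B, hB⟩, k + 1) : 𝓕 × ℕ)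
      rw [mem_principal]
      intro z hz
      have := hz.2 k (Nat.lt_succ_self k)
      rw [← this]
      exact hσmem z k)
    refine ⟨p, fun F hF' => ?_⟩
    rw [mem_closure_iff_clusterPt]
    refine hp.mono ?_
    refine (iInf_le _ ((⟨F, hF'⟩, 0) : 𝓕 × ℕ)).trans ?_
    exact principal_mono.mpr fun z hz => hz.1

end Topology

end Pool.Agent.Work.MP_e752eb_gt
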